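import Pool.Agent.helper84.NR.Spec

/-! Row VXS of project NR (helper84), proved by helper42. -/

set_option autoImplicit false

namespace Pool.Agent.helper84.NR

open scoped Classical
open Finset

theorem VXS_onV {V F : Type} (M : Cyc V F) (f : F) (e : Sym2 V) (v : V) (h : OnE M f e)
    (hv : v ∈ e) : OnV M f v := by
  obtain ⟨k, rfl⟩ := h
  rcases Sym2.mem_iff.1 hv with h | h
  · exact ⟨k, h.symm⟩
  · exact ⟨k + 1, h.symm⟩

/-- If an edge at `v` separates `S`, another edge at `v` does. -/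
theorem VXS_other {V F : Type} [Fintype V] [Fintype F] (hPAR : PAR_stmt) (M : PMap V F)
    (S : Set F) (v : V) (e : Sym2 V) (hv : v ∈ e) (h1 : ∃ f, OnE M.toCyc f e ∧ f ∈ S)
    (h2 : ∃ g, OnE M.toCyc g e ∧ g ∉ S) :
    ∃ e' : Sym2 V, e' ≠ e ∧ v ∈ e' ∧ (∃ f, OnE M.toCyc f e' ∧ f ∈ S) ∧
      ∃ g, OnE M.toCyc g e' ∧ g ∉ S := by
  have h := hPAR V F M S v
  by_contra hc
  have hone : (univ.filter (fun e : Sym2 V => v ∈ e ∧ (∃ f, OnE M.toCyc f e ∧ f ∈ S) ∧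
    ∃ g, OnE M.toCyc g e ∧ g ∉ S)) = {e} := by
    refine Finset.eq_singleton_iff_unique_mem.2
      ⟨Finset.mem_filter.2 ⟨mem_univ _, hv, h1, h2⟩, fun e' he' => ?_⟩
    by_contra hne
    exact hc ⟨e', hne, (Finset.mem_filter.1 he').2⟩
  rw [hone, card_singleton] at h
  exact absurd h (by decide)

theorem VXS (hDEG : DEG_stmt) (hPAR : PAR_stmt) : VXS_stmt := by
  intro V F _ _ M x y J hT q hqx hqy v hvJ e hve hcx hg
  obtain ⟨B, hBJ, hBv⟩ := hvJ
  by_contra hcon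
  obtain ⟨S, hS⟩ : ∃ S : Set F, S = {f | Quot.mk (lk M (inU M x y J)) f = q} := ⟨_, rfl⟩
  have memS : ∀ f, f ∈ S ↔ Quot.mk (lk M (inU M x y J)) f = q := by
    intro f; rw [hS]; exact Iff.rfl
  have hsep : ∀ e' : Sym2 V, (∃ f, OnE M.toCyc f e' ∧ f ∈ S) →
      (∃ g, OnE M.toCyc g e' ∧ g ∉ S) → inU M x y J e' := by
    rintro e' ⟨f, hf1, hf2⟩ ⟨g, hg1, hg2⟩
    by_contra hU
    exact hg2 ((memS g).2 ((Quot.sound (⟨e', hU, hg1, hf1⟩ :
      lk M (inU M x y J) g f)).trans ((memS f).1 hf2)))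
  have hsepcx : ∀ e' : Sym2 V, v ∈ e' → (∃ f, OnE M.toCyc f e' ∧ f ∈ S) →
      (∃ g, OnE M.toCyc g e' ∧ g ∉ S) → cx M x e' := by
    intro e' hv' h1 h2
    rcases hsep e' h1 h2 with h | ⟨B', hB', k, hk, rfl⟩
    · exact h
    · by_contra hncx
      obtain ⟨f, hf1, hf2⟩ := h1
      exact hcon ⟨B', hB', k, hk, hv', hncx, f, hf1, (memS f).1 hf2⟩
  have hxS : ∀ A, OnV M.toCyc A x → A ∉ S := fun A hA h => hqx A hA ((memS A).1 h)
  have hcx0 := hcx
  obtain ⟨hxe, A, hAx, hAe⟩ := hcx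
  have hvx : v ≠ x := by
    rintro rfl
    exact hxe hve
  have hAv : OnV M.toCyc A v := VXS_onV M.toCyc A e v hAe hve
  have h2 := (hDEG V F M x).2.2.2.2 v hvx ⟨A, hAx, hAv⟩
  obtain ⟨g, hge, hgq⟩ := hg
  have hgS : g ∈ S := (memS g).2 hgq
  obtain ⟨e', hee', hve', hs1, hs2⟩ :=
    VXS_other hPAR M S v e hve ⟨g, hge, hgS⟩ ⟨A, hAe, hxS A hAx⟩
  have hcx' := hsepcx e' hve' hs1 hs2
  have hall : ∀ h : Sym2 V, v ∈ h → cx M x h → h = e ∨ h = e' := by
    intro h hvh hch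
    have hsub : ({e, e'} : Finset (Sym2 V)) ⊆ (univ.filter (fun e : Sym2 V => v ∈ e ∧ x ∉ e ∧
      ∃ A, OnV M.toCyc A x ∧ OnE M.toCyc A e)) := by
      intro t ht
      rcases mem_insert.1 ht with h1 | h1
      · rw [h1]; exact Finset.mem_filter.2 ⟨mem_univ _, hve, hcx0⟩
      · rw [mem_singleton.1 h1]; exact Finset.mem_filter.2 ⟨mem_univ _, hve', hcx'⟩
    have heq := Finset.eq_of_subset_of_card_le hsub (by rw [h2, card_pair (Ne.symm hee')])
    have hmem : h ∈ ({e, e'} : Finset (Sym2 V)) := by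
      rw [heq]; exact Finset.mem_filter.2 ⟨mem_univ _, hvh, hch⟩
    rcases mem_insert.1 hmem with h1 | h1
    · exact Or.inl h1
    · exact Or.inr (mem_singleton.1 h1)
  have hface : ∀ h : Sym2 V, (∃ g, OnE M.toCyc g h ∧ g ∈ S) → cx M x h →
      ∀ f, OnE M.toCyc f h → f ∈ S ∨ OnV M.toCyc f x := by
    rintro h ⟨g1, hg1, hg1S⟩ ⟨-, A', hA'x, hA'h⟩ f hf
    obtain ⟨g', -, hg', huniq⟩ := M.two h A' hA'h
    rcases huniq g1 hg1 with h3 | h3
    · exact absurd hg1S (h3 ▸ hxS A' hA'x)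
    · rcases huniq f hf with h4 | h4
      · exact Or.inr (h4 ▸ hA'x)
      · exact Or.inl (h4 ▸ h3 ▸ hg1S)
  have hlink := M.link v (S ∪ {f | OnV M.toCyc f x}) (by
    intro h hvh f1 f2 hf1 hf2 hf1S
    by_cases hxh : x ∈ h
    · exact Or.inr (VXS_onV M.toCyc f2 h x hf2 hxh)
    · by_cases hch : cx M x h
      · rcases hall h hvh hch with h3 | h3
        · subst h3
          exact hface h ⟨g, hge, hgS⟩ hch f2 hf2
        · subst h3
          exact hface h hs1 hch f2 hf2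
      · have hnx : ∀ f, OnE M.toCyc f h → ¬ OnV M.toCyc f x := fun f hf hfx =>
          hch ⟨hxh, f, hfx, hf⟩
        have hf1S' : f1 ∈ S := by
          rcases hf1S with h3 | h3
          · exact h3
          · exact absurd h3 (hnx f1 hf1)
        refine Or.inl ?_
        by_contra hf2S
        exact hch (hsepcx h hvh ⟨f1, hf1, hf1S'⟩ ⟨f2, hf2, hf2S⟩)) A B hAv hBv (Or.inr hAx)
  rcases hlink with h | h
  · exact hqy B (hT.jy B hBJ) ((memS B).1 h)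
  · exact hT.ne B ⟨h, hT.jy B hBJ⟩

end Pool.Agent.helper84.NR
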